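import Pool.Agent.L0h38.GI.Stm

/-!
# CLQ: cliques generate direct products
-/

set_option autoImplicit false

namespace Pool.Agent.L0h95.GI

open Pool.Agent.L0h38.GI

theorem t_CLQ : S_CLQ := by
  intro V Γ G _ K hK hfin
  classical
  have : Fintype K := hfin.fintype
  have hcomm : Pairwise fun (i j : K) => ∀ (x : G i) (y : G j),
      Commute (inj Γ G i x) (inj Γ G j y) := by
    intro i j hij x y
    exact inj_comm (hK i.2 j.2 (fun h => hij (Subtype.ext h))) x y
  let κ : (∀ v : K, G v) →* GrP Γ G := MonoidHom.noncommPiCoprod (fun v : K => inj Γ G v) hcomm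
  have hκs : ∀ (v : K) (x : G v), κ (Pi.mulSingle v x) = inj Γ G v x := by
    intro v x
    exact MonoidHom.noncommPiCoprod_mulSingle (ϕ := fun v : K => inj Γ G v) (hcomm := hcomm) v x
  have hrange : κ.range = P Γ G K := by
    change (MonoidHom.noncommPiCoprod (fun v : K => inj Γ G v) hcomm).range = _
    rw [MonoidHom.noncommPiCoprod_range]
    unfold P
    rw [iSup_subtype]
  have htoPi : ∀ (z : ∀ v : K, G v) (v : K), toPi (κ z) v = z v := by
    intro z v
    have h : ∀ z : ∀ v : K, G v, z ∈ MonoidHom.eqLocus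
        ((Pi.evalMonoidHom G (v : V)).comp (toPi.comp κ)) (Pi.evalMonoidHom (fun v : K => G v) v) := by
      intro z
      apply Subgroup.pi_mem_of_mulSingle_mem
      intro w
      change toPi (κ (Pi.mulSingle w (z w))) (v : V) = (Pi.mulSingle w (z w) : ∀ v : K, G v) v
      rw [hκs]
      by_cases hvw : v = w
      · subst hvw
        rw [toPi_inj_same, Pi.mulSingle_eq_same]
      · rw [toPi_inj_ne (fun h => hvw (Subtype.ext h)), Pi.mulSingle_eq_of_ne hvw]
    exact h z
  refine ⟨?_, κ, ?_, hrange, htoPi, ?_⟩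
  · intro x hx y hy hxy
    rw [← hrange] at hx hy
    obtain ⟨z, rfl⟩ := hx
    obtain ⟨z', rfl⟩ := hy
    congr 1
    funext v
    rw [← htoPi z v, ← htoPi z' v, hxy]
  · intro z z' h
    funext v
    rw [← htoPi z v, ← htoPi z' v, h]
  · intro z v hz
    rw [← hκs]
    congr 1
    funext w
    by_cases hvw : w = v
    · subst hvw
      rw [Pi.mulSingle_eq_same]
    · rw [Pi.mulSingle_eq_of_ne hvw, hz w hvw]

end Pool.Agent.L0h95.GI
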