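import Pool.Agent.L0h38.GI.Stm

/-!
# HEI: exponents of commuting elements, via the Heisenberg group
-/

set_option autoImplicit false

namespace Pool.Agent.L0h95.GI

open Pool.Agent.L0h38.GI

/-- the Heisenberg group -/
@[ext] structure Heis where
  a : ℤ
  b : ℤ
  c : ℤ

instance : Mul Heis := ⟨fun x y => ⟨x.a + y.a, x.b + y.b, x.c + y.c + x.a * y.b⟩⟩
instance : One Heis := ⟨⟨0, 0, 0⟩⟩
instance : Inv Heis := ⟨fun x => ⟨-x.a, -x.b, -x.c + x.a * x.b⟩⟩

theorem mul_a (x y : Heis) : (x * y).a = x.a + y.a := rfl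
theorem mul_b (x y : Heis) : (x * y).b = x.b + y.b := rfl
theorem mul_c (x y : Heis) : (x * y).c = x.c + y.c + x.a * y.b := rfl
theorem one_a : (1 : Heis).a = 0 := rfl
theorem one_b : (1 : Heis).b = 0 := rfl
theorem one_c : (1 : Heis).c = 0 := rfl
theorem inv_a (x : Heis) : (x⁻¹).a = -x.a := rfl
theorem inv_b (x : Heis) : (x⁻¹).b = -x.b := rfl
theorem inv_c (x : Heis) : (x⁻¹).c = -x.c + x.a * x.b := rfl

instance : Group Heis := Group.ofLeftAxioms
  (fun x y z => by ext <;> simp only [mul_a, mul_b, mul_c] <;> ring)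
  (fun x => by ext <;> simp only [mul_a, mul_b, mul_c, one_a, one_b, one_c] <;> ring)
  (fun x => by
    ext <;> simp only [mul_a, mul_b, mul_c, one_a, one_b, one_c, inv_a, inv_b, inv_c] <;> ring)

/-- the first coordinate -/
def fa : Heis →* Multiplicative ℤ where
  toFun x := Multiplicative.ofAdd x.a
  map_one' := rfl
  map_mul' _ _ := rfl

/-- the second coordinate -/
def fb : Heis →* Multiplicative ℤ where
  toFun x := Multiplicative.ofAdd x.b
  map_one' := rfl
  map_mul' _ _ := rfl

theorem t_HEI : S_HEI := by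
  intro V Γ G _ w w' hne hadj f f' a b hab
  classical
  -- the homomorphisms of the vertex groups
  have key : ∀ (v v' : V) (x : G v) (y : G v'), (v = v' ∨ Γ.Adj v v') →
      (f (Pi.mulSingle v x w)).toAdd * (f' (Pi.mulSingle v' y w')).toAdd = 0 := by
    intro v v' x y hv
    by_cases h1 : w = v
    · by_cases h2 : w' = v'
      · exfalso
        rcases hv with hv | hv
        · exact hne (h1.trans (hv.trans h2.symm))
        · exact hadj (h1 ▸ h2 ▸ hv)
      · rw [Pi.mulSingle_eq_of_ne h2, map_one, toAdd_one, mul_zero]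
    · rw [Pi.mulSingle_eq_of_ne h1, map_one, toAdd_one, zero_mul]
  let F : ∀ v, G v →* Heis := fun v =>
    { toFun := fun x => ⟨(f (Pi.mulSingle v x w)).toAdd, (f' (Pi.mulSingle v x w')).toAdd, 0⟩
      map_one' := by
        ext
        · change (f ((Pi.mulSingle v (1 : G v) : ∀ v, G v) w)).toAdd = 0
          rw [Pi.mulSingle_one, Pi.one_apply, map_one, toAdd_one]
        · change (f' ((Pi.mulSingle v (1 : G v) : ∀ v, G v) w')).toAdd = 0
          rw [Pi.mulSingle_one, Pi.one_apply, map_one, toAdd_one]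
        · rfl
      map_mul' := by
        intro x y
        ext
        · change (f ((Pi.mulSingle v (x * y) : ∀ v, G v) w)).toAdd = _
          rw [Pi.mulSingle_mul, Pi.mul_apply, map_mul, toAdd_mul]
          rfl
        · change (f' ((Pi.mulSingle v (x * y) : ∀ v, G v) w')).toAdd = _
          rw [Pi.mulSingle_mul, Pi.mul_apply, map_mul, toAdd_mul]
          rfl
        · rw [mul_c]
          change (0 : ℤ) = 0 + 0 + (f (Pi.mulSingle v x w)).toAdd * (f' (Pi.mulSingle v y w')).toAdd
          rw [key v v x y (Or.inl rfl)]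
          ring }
  have hF : ∀ v v', Γ.Adj v v' → ∀ x y, Commute (F v x) (F v' y) := by
    intro v v' hvv x y
    have e1 := key v v' x y (Or.inr hvv)
    have e2 := key v' v y x (Or.inr hvv.symm)
    change F v x * F v' y = F v' y * F v x
    ext
    · rw [mul_a, mul_a]; ring
    · rw [mul_b, mul_b]; ring
    · rw [mul_c, mul_c]
      change (0 : ℤ) + 0 + (f (Pi.mulSingle v x w)).toAdd * (f' (Pi.mulSingle v' y w')).toAdd =
        0 + 0 + (f (Pi.mulSingle v' y w)).toAdd * (f' (Pi.mulSingle v x w')).toAdd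
      rw [e1, e2]
  have ha : ∀ z : GrP Γ G, ((lift F hF) z).a = (f (toPi z w)).toAdd := by
    intro z
    have h : fa.comp (lift F hF) = f.comp ((Pi.evalMonoidHom G w).comp toPi) := by
      apply gp_ext
      intro v x
      change Multiplicative.ofAdd ((lift F hF) (inj Γ G v x)).a = f (toPi (inj Γ G v x) w)
      rw [lift_inj, toPi_inj]
      rfl
    have h1 := DFunLike.congr_fun h z
    exact congrArg Multiplicative.toAdd h1
  have hb : ∀ z : GrP Γ G, ((lift F hF) z).b = (f' (toPi z w')).toAdd := by
    intro z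
    have h : fb.comp (lift F hF) = f'.comp ((Pi.evalMonoidHom G w').comp toPi) := by
      apply gp_ext
      intro v x
      change Multiplicative.ofAdd ((lift F hF) (inj Γ G v x)).b = f' (toPi (inj Γ G v x) w')
      rw [lift_inj, toPi_inj]
      rfl
    have h1 := DFunLike.congr_fun h z
    exact congrArg Multiplicative.toAdd h1
  have hc : lift F hF a * lift F hF b = lift F hF b * lift F hF a := by
    rw [← map_mul, ← map_mul, hab.eq]
  have hc' := congrArg Heis.c hc
  rw [mul_c, mul_c, ha, ha, hb, hb] at hc'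
  linarith

end Pool.Agent.L0h95.GI
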