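import Pool.Agent.L0h38.GI.Stm

/-!
# RET: retractions of graph products
-/

set_option autoImplicit false

namespace Pool.Agent.L0h95.GI

open Pool.Agent.L0h38.GI

theorem t_RET : S_RET := by
  intro V Γ G _ S T
  have h1 : ∀ S : Set V, ∀ x ∈ P Γ G S, ret S x = x := by
    intro S x hx
    have h : P Γ G S ≤ MonoidHom.eqLocus (ret S) (MonoidHom.id (GrP Γ G)) :=
      P_le.2 fun v hv x => ret_inj_mem hv x
    exact h hx
  have h3 : ∀ x ∈ P Γ G T, ret S x ∈ P Γ G (S ∩ T) := by
    intro x hx
    have h : P Γ G T ≤ (P Γ G (S ∩ T)).comap (ret S) := P_le.2 fun v hv x => by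
      rw [Subgroup.mem_comap]
      by_cases hS : v ∈ S
      · rw [ret_inj_mem hS]
        exact inj_mem (S := S ∩ T) ⟨hS, hv⟩ x
      · rw [ret_inj_not hS]
        exact one_mem _
    exact h hx
  refine ⟨h1 S, ?_, h3, ?_, ?_, ?_⟩
  · intro x
    have h : P Γ G Set.univ ≤ (P Γ G S).comap (ret S) := P_le.2 fun v _ x => by
      rw [Subgroup.mem_comap]
      by_cases hS : v ∈ S
      · rw [ret_inj_mem hS]
        exact inj_mem hS x
      · rw [ret_inj_not hS]
        exact one_mem _
    rw [P_top] at h
    exact h (Subgroup.mem_top x)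
  · apply le_antisymm
    · rintro x ⟨hx, hy⟩
      rw [← h1 S x hx]
      exact h3 x hy
    · exact le_inf (P_mono Set.inter_subset_left) (P_mono Set.inter_subset_right)
  · intro v x y h
    have h2 := congrArg (fun z => toPi z v) h
    simp only [toPi_inj_same] at h2
    exact h2
  · intro x hx v hv
    have h : P Γ G S ≤ ((Pi.evalMonoidHom G v).comp toPi).ker := P_le.2 fun w hw x => by
      rw [MonoidHom.mem_ker]
      change toPi (inj Γ G w x) v = 1
      exact toPi_inj_ne (fun e : v = w => hv (by rw [e]; exact hw)) x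
    exact h hx

end Pool.Agent.L0h95.GI
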